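import Mathlib

set_option autoImplicit false

namespace Pool.Agent.Results.MP_8e2370_an.Counter

open Complex

/-- `R(z) = ∑ α_l / (z - p_l)`. -/
noncomputable def R {k : ℕ} (p α : Fin k → ℝ) (z : ℂ) : ℂ := ∑ l, (α l : ℂ) / (z - p l)

/-- The open upper half of the circle with diameter `[s, t]`. -/
def upperHalfCircle (s t : ℝ) : Set ℂ :=
  {z | ‖z - ((s + t) / 2 : ℝ)‖ = (t - s) / 2 ∧ 0 < z.im}

noncomputable def dt (a b d : ℂ) : ℝ :=
  (b.re - a.re) * (d.im - a.im) - (d.re - a.re) * (b.im - a.im)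

lemma tri (K : Set ℂ) (hK : Convex ℝ K) (a b d c : ℂ) (ha : a ∈ K) (hb : b ∈ K) (hd : d ∈ K)
    (h0 : dt a b d ≠ 0) (h2 : 0 < dt a c d / dt a b d) (h3 : 0 < dt a b c / dt a b d)
    (h1 : dt a c d / dt a b d + dt a b c / dt a b d < 1) : c ∈ interior K := by
  let U : Set ℂ := {w | 0 < dt a w d / dt a b d ∧ 0 < dt a b w / dt a b d ∧
    dt a w d / dt a b d + dt a b w / dt a b d < 1}
  have c2 : Continuous fun w => dt a w d / dt a b d := by unfold dt; fun_prop
  have c3 : Continuous fun w => dt a b w / dt a b d := by unfold dt; fun_prop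
  have hU : IsOpen U :=
    (isOpen_lt continuous_const c2).inter ((isOpen_lt continuous_const c3).inter
      (isOpen_lt (c2.add c3) continuous_const))
  refine interior_maximal (t := U) ?_ hU ⟨h2, h3, h1⟩
  rintro w ⟨w2, w3, w1⟩
  set l2 := dt a w d / dt a b d with e2
  set l3 := dt a b w / dt a b d with e3
  have hs := hK.sum_mem (t := Finset.univ) (w := ![1 - l2 - l3, l2, l3]) (z := ![a, b, d])
    (by intro i _; fin_cases i <;> simp <;> linarith)
    (by simp [Fin.sum_univ_three]; ring)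
    (by intro i _; fin_cases i <;> simpa)
  have : w = ∑ i : Fin 3, ![1 - l2 - l3, l2, l3] i • ![a, b, d] i := by
    rw [Fin.sum_univ_three]
    apply Complex.ext
    · simp [e2, e3]
      field_simp
      unfold dt; ring
    · simp [e2, e3]
      field_simp
      unfold dt; ring
  rw [this]; exact hs

lemma memc (x y : ℝ) (h : x ^ 2 + y ^ 2 = 1) (hy : 0 < y) :
    (⟨x, y⟩ : ℂ) ∈ upperHalfCircle (-1) 1 := by
  refine ⟨?_, hy⟩
  norm_num [Complex.norm_eq_sqrt_sq_add_sq, h]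

lemma Rval (x y : ℝ) : R ![-1, 1, 3] ![1, 1, 80] ⟨x, y⟩ =
    ⟨(x + 1) / ((x + 1) ^ 2 + y ^ 2) + (x - 1) / ((x - 1) ^ 2 + y ^ 2) +
      80 * (x - 3) / ((x - 3) ^ 2 + y ^ 2),
     -y / ((x + 1) ^ 2 + y ^ 2) - y / ((x - 1) ^ 2 + y ^ 2) - 80 * y / ((x - 3) ^ 2 + y ^ 2)⟩ := by
  unfold R
  rw [Fin.sum_univ_three]
  apply Complex.ext <;> simp [Complex.div_re, Complex.div_im, Complex.normSq_apply] <;> ring

theorem result : ∃ (k : ℕ) (p α : Fin k → ℝ) (i j : Fin k), 3 ≤ k ∧ StrictMono p ∧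
    (∀ l, 0 < α l) ∧ j.val = i.val + 1 ∧
    ¬ ∃ K : Set ℂ, IsClosed K ∧ Convex ℝ K ∧
      frontier K = R p α '' upperHalfCircle (p i) (p j) := by
  refine ⟨3, ![-1, 1, 3], ![1, 1, 80], 0, 1, le_rfl, ?_, ?_, rfl, ?_⟩
  · rw [Fin.strictMono_iff_lt_succ]
    intro i; fin_cases i
    · show (-1 : ℝ) < 1
      norm_num
    · show (1 : ℝ) < 3
      norm_num
  · intro l; fin_cases l <;> norm_num
  rintro ⟨K, hc, hK, hf⟩
  have key : ∀ x y : ℝ, x ^ 2 + y ^ 2 = 1 → 0 < y →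
      R ![-1, 1, 3] ![1, 1, 80] ⟨x, y⟩ ∈ frontier K := by
    intro x y h hy
    rw [hf]
    exact ⟨_, memc x y h hy, rfl⟩
  have ha := hc.frontier_subset (key (24 / 25) (7 / 25) (by norm_num) (by norm_num))
  have hb := hc.frontier_subset (key (-4 / 5) (3 / 5) (by norm_num) (by norm_num))
  have hd := hc.frontier_subset (key (2499 / 2501) (100 / 2501) (by norm_num) (by norm_num))
  have h := key (3 / 5) (4 / 5) (by norm_num) (by norm_num)
  rw [Rval] at ha hb hd h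
  exact h.2 (tri K hK _ _ _ _ ha hb hd (by norm_num [dt]) (by norm_num [dt]) (by norm_num [dt])
    (by norm_num [dt]))

end Pool.Agent.Results.MP_8e2370_an.Counter
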